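import Pool.Agent.Helper74.LE.GoalsH
import Pool.Agent.Helper93.LL.KD1

/-!
# Project LE (MP_cc6379_al), packet DI1
-/

set_option autoImplicit false

namespace Pool.Agent.Helper41.LE.DI1

open LaurentPolynomial Pool.Agent.Helper15.RA Pool.Agent.Helper15.AM Pool.Agent.Helper45.AM Pool.Agent.Helper74.LL
  Pool.Agent.Helper74.LE

variable {S W H : Type} [Group W] [Ring H] [Algebra ℤ[T;T⁻¹] H]

omit [Algebra ℤ[T;T⁻¹] H] in
lemma map_XX {H' : Type} [Ring H'] (φ : H' →+* H) (k : ℕ) : ∀ a b : H', φ (XX a b k) = XX (φ a) (φ b) k := by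
  induction k using Nat.strong_induction_on with
  | _ k ih =>
    intro a b
    match k with
    | 0 => exact map_zero φ
    | 1 => rfl
    | k + 2 =>
      show φ (a * XX b a (k + 1) - XX a b k) = φ a * XX (φ b) (φ a) (k + 1) - XX (φ a) (φ b) k
      rw [map_sub, map_mul, ih (k + 1) (by omega), ih k (by omega)]

/-- the elements `c_w` of a dihedral parabolic subgroup with equal weights -/
lemma cXX (X : Base S W H) (i j : S) (hij : i ≠ j) (hm : 3 ≤ X.M i j)
    (hL : X.L (X.cs.simple i) = X.L (X.cs.simple j)) :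
    (∀ k, 1 ≤ k → k ≤ X.M i j → XX (X.D.c (X.cs.simple i)) (X.D.c (X.cs.simple j)) k = X.D.c (al X.cs i j k)) ∧
    (∀ k, 1 ≤ k → k ≤ X.M i j → XX (X.D.c (X.cs.simple j)) (X.D.c (X.cs.simple i)) k = X.D.c (al X.cs j i k)) := by
  let e : Bool → S := fun b => if b then i else j
  have he : Function.Injective e := by
    intro a b hab
    cases a <;> cases b
    · rfl
    · exact absurd hab.symm hij
    · exact absurd hab hij
    · rfl
  have hM : (subE X.M e he) true false = X.M i j := rfl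
  obtain ⟨p1, p2, p3, p4⟩ := k_gps S W X.M X.cs Bool e he
  obtain ⟨Hv, _, _, Dv, φ, hφ, hφt, hφc⟩ := k_vb S W H X Bool e he
  have hwt := p4 X.L X.wt
  obtain ⟨-, ⟨hv, hIsH⟩, -⟩ := g_h3 Bool (subE X.M e he).Group Hv (subE X.M e he)
    (subE X.M e he).toCoxeterSystem _ hwt Dv
  let Y : Dih Bool (subE X.M e he).Group Hv :=
    { M := subE X.M e he
      cs := (subE X.M e he).toCoxeterSystem
      L := fun g => X.L (iotaE X.cs e he g)
      wt := hwt
      D := Dv
      h := hv
      isH := hIsH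
      i := true
      j := false
      ne := by decide
      all := by intro k; cases k <;> simp
      hm := by rw [hM]; exact hm }
  have hsi : iotaE X.cs e he ((subE X.M e he).toCoxeterSystem.simple true) = X.cs.simple i := by
    unfold iotaE
    exact (subE X.M e he).toCoxeterSystem.lift_apply_simple _ true
  have hsj : iotaE X.cs e he ((subE X.M e he).toCoxeterSystem.simple false) = X.cs.simple j := by
    unfold iotaE
    exact (subE X.M e he).toCoxeterSystem.lift_apply_simple _ false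
  have hab : Y.a = Y.b := by
    show X.L (iotaE X.cs e he ((subE X.M e he).toCoxeterSystem.simple true)) =
      X.L (iotaE X.cs e he ((subE X.M e he).toCoxeterSystem.simple false))
    rw [hsi, hsj, hL]
  obtain ⟨hx, hy⟩ := g_rx Bool (subE X.M e he).Group Hv Y hab
  have hmY : Y.m = X.M i j := hM
  have hci : φ Y.ci = X.D.c (X.cs.simple i) := by
    show φ (Dv.c ((subE X.M e he).toCoxeterSystem.simple true)) = _
    rw [hφc, hsi]
  have hcj : φ Y.cj = X.D.c (X.cs.simple j) := by
    show φ (Dv.c ((subE X.M e he).toCoxeterSystem.simple false)) = _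
    rw [hφc, hsj]
  refine ⟨fun k hk1 hk2 => ?_, fun k hk1 hk2 => ?_⟩
  · have h := congrArg φ (hx k hk1 (by rw [hmY]; exact hk2))
    have h2 := map_XX (φ : Hv →+* H) k Y.ci Y.cj
    have h3 : φ (Dv.c (al (subE X.M e he).toCoxeterSystem true false k)) = X.D.c (al X.cs i j k) := by
      rw [hφc, Pool.Agent.Helper93.LL.KD1.iota_al]
      rfl
    rw [← hci, ← hcj]
    exact h2.symm.trans (h.trans h3)
  · have h := congrArg φ (hy k hk1 (by rw [hmY]; exact hk2))
    have h2 := map_XX (φ : Hv →+* H) k Y.cj Y.ci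
    have h3 : φ (Dv.c (al (subE X.M e he).toCoxeterSystem false true k)) = X.D.c (al X.cs j i k) := by
      rw [hφc, Pool.Agent.Helper93.LL.KD1.iota_al]
      rfl
    rw [← hci, ← hcj]
    exact h2.symm.trans (h.trans h3)

/-- `α(s_i) ≤ L(s_i)` -/
lemma a_s (X : TE S W H) (i : S) : X.α (X.cs.simple i) ≤ X.l i := by
  classical
  have hPG := X.pg {i, i} (Or.inr ⟨i, i, rfl⟩)
  have hmem : X.cs.simple i ∈ par X.cs {i, i} := Subgroup.subset_closure ⟨i, by simp, rfl⟩
  have h := hPG.p1 _ hmem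
  obtain ⟨-, -, -, -, -, -, -, -, hcs, -⟩ := g_h2 S W H X.M X.cs X.L X.wt X.D
  have ht : X.D.t 1 = 1 := (g_h1 S W H X.M X.cs X.L X.D.toHecke0).1
  have hne : X.cs.simple i ≠ 1 := by
    intro h1
    have h2 := X.cs.length_simple i
    rw [h1, X.cs.length_one] at h2
    omega
  have h3 : X.D.t.repr (X.D.c (X.cs.simple i)) 1 = T (-(X.L (X.cs.simple i) : ℤ)) := by
    rw [hcs, ← ht, map_add, map_smul, Module.Basis.repr_self, Module.Basis.repr_self, Finsupp.add_apply,
      Finsupp.smul_apply, Finsupp.single_apply, Finsupp.single_apply, if_neg hne, if_pos rfl, zero_add,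
      smul_eq_mul, mul_one]
  rw [h3] at h
  by_contra hc
  have hlt : (X.L (X.cs.simple i) : ℤ) < X.α (X.cs.simple i) := by
    have h5 : X.L (X.cs.simple i) < X.α (X.cs.simple i) := not_le.mp hc
    exact_mod_cast h5
  have h4 := h (-(X.L (X.cs.simple i) : ℤ)) (by omega)
  have h6 : (T (-(X.L (X.cs.simple i) : ℤ)) : ℤ[T;T⁻¹]).coeff (-(X.L (X.cs.simple i) : ℤ)) = 1 := by
    exact Finsupp.single_eq_same
  rw [h6] at h4
  exact one_ne_zero h4

/-- the step -/
lemma stp (X : TE S W H) (i j : S) (hij : i ≠ j) (hM2 : X.M i j ≠ 2) (hl : X.l i = X.l j) (k : ℕ) (hk : 1 ≤ k)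
    (hkm : k + 2 ≤ X.M i j) : X.α (al X.cs j i (k + 1)) ≤ X.α (al X.cs i j k) := by
  classical
  have hm7 : 7 ≤ X.M i j := X.big i j hij hM2
  obtain ⟨c1, c2⟩ := cXX X.toBase i j hij (by omega) hl
  obtain ⟨b1, -⟩ := Pool.Agent.Helper93.LL.KD1.base X.cs i j hij (X.fin i j)
  have hPG := X.pg {i, j} (Or.inr ⟨i, j, rfl⟩)
  have hmem : ∀ k, al X.cs i j k ∈ par X.cs {i, j} := fun k => Pool.Agent.Helper93.LL.KD1.al_par X.cs k i j
  have hmem' : ∀ k, al X.cs j i k ∈ par X.cs {i, j} := fun k => by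
    have := Pool.Agent.Helper93.LL.KD1.al_par X.cs k j i
    rwa [Set.pair_comm] at this
  have hsi : X.cs.simple i ∈ par X.cs {i, j} := Subgroup.subset_closure ⟨i, by simp, rfl⟩
  have hprod : X.D.c (X.cs.simple i) * X.D.c (al X.cs j i (k + 1)) =
      X.D.c (al X.cs i j (k + 2)) + X.D.c (al X.cs i j k) := by
    rw [← c2 (k + 1) (by omega) (by omega), ← c1 (k + 2) (by omega) (by omega), ← c1 k hk (by omega)]
    show _ = X.D.c (X.cs.simple i) * XX (X.D.c (X.cs.simple j)) (X.D.c (X.cs.simple i)) (k + 1) -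
      XX (X.D.c (X.cs.simple i)) (X.D.c (X.cs.simple j)) k + _
    rw [sub_add_cancel]
  have hh : X.h (X.cs.simple i) (al X.cs j i (k + 1)) (al X.cs i j k) = 1 := by
    have hne : al X.cs i j (k + 2) ≠ al X.cs i j k := by
      intro h
      have h2 := congrArg X.cs.length h
      rw [b1 _ hkm, b1 _ (by omega)] at h2
      omega
    rw [← (k_ab S W H X.toBase).1, hprod, map_add, ← X.hb, ← X.hb, Module.Basis.repr_self,
      Module.Basis.repr_self, Finsupp.add_apply, Finsupp.single_apply, Finsupp.single_apply, if_neg hne,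
      if_pos rfl, zero_add]
  exact (hPG.p4 _ hsi _ (hmem' (k + 1)) _ (hmem k) (by rw [hh]; exact one_ne_zero)).2

theorem t (_ : KD1) : DI1 := by
  intro S W H _ _ _ X i j hij hM2 hl g hg hg1 hgw
  obtain ⟨b1, b2, b3, -⟩ := Pool.Agent.Helper93.LL.KD1.base X.cs i j hij (X.fin i j)
  have hsym : X.M j i = X.M i j := X.M.symmetric j i
  have key : ∀ k, 1 ≤ k → k + 1 ≤ X.M i j → X.α (al X.cs i j k) ≤ X.l i ∧ X.α (al X.cs j i k) ≤ X.l i := by
    intro k hk
    induction k, hk using Nat.le_induction with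
    | base =>
      intro _
      have h1 : al X.cs i j 1 = X.cs.simple i := by simp [al]
      have h2 : al X.cs j i 1 = X.cs.simple j := by simp [al]
      rw [h1, h2]
      exact ⟨a_s X i, (a_s X j).trans hl.symm.le⟩
    | succ k hk ih =>
      intro hkm
      obtain ⟨h1, h2⟩ := ih (by omega)
      exact ⟨(stp X j i hij.symm (by rw [hsym]; exact hM2) hl.symm k hk (by rw [hsym]; exact hkm)).trans h2,
        (stp X i j hij hM2 hl k hk hkm).trans h1⟩
  obtain ⟨k, hk, rfl | rfl⟩ := b3 g hg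
  · have hk0 : k ≠ 0 := by
      rintro rfl
      exact hg1 rfl
    have hkm : k ≠ X.M i j := by
      rintro rfl
      exact hgw rfl
    exact (key k (by omega) (by omega)).1
  · have hk0 : k ≠ 0 := by
      rintro rfl
      exact hg1 rfl
    have hkm : k ≠ X.M i j := by
      rintro rfl
      exact hgw b2.symm
    exact (key k (by omega) (by omega)).2

end Pool.Agent.Helper41.LE.DI1
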